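import Pool.Agent.MQG.StmtsU

set_option autoImplicit false

/-!
# Direct sums of bounded operators exist (DSX)
-/

namespace Pool.Agent.MQG.H15

open Pool.Agent.MQG

variable {P Y : Type} {X : P → Type}

theorem hasSum_prt (e : Y ≃ Σ p, X p) (ζ : L2 Y) :
    HasSum (fun p => ‖prt e p ζ‖ ^ 2) (‖ζ‖ ^ 2) := by
  have h0 : Summable fun c => ‖ζ c‖ ^ 2 := summable_sq ζ
  have h1 : HasSum (fun q : Σ p, X p => ‖ζ (e.symm q)‖ ^ 2) (‖ζ‖ ^ 2) := by
    rw [norm_sq_eq]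
    exact (Equiv.hasSum_iff e.symm).2 h0.hasSum
  refine h1.sigma fun p => ?_
  rw [norm_sq_eq]
  exact (summable_sq (prt e p ζ)).hasSum

theorem hasSum_join (e : Y ≃ Σ p, X p) (f : ∀ p, L2 (X p)) (h : Summable fun p => ‖f p‖ ^ 2) :
    HasSum (fun y : Y => ‖f (e y).1 (e y).2‖ ^ 2) (∑' p, ‖f p‖ ^ 2) := by
  have h2 : Summable fun q : Σ p, X p => ‖f q.1 q.2‖ ^ 2 := by
    rw [summable_sigma_of_nonneg (fun _ => by positivity)]
    refine ⟨fun p => summable_sq (f p), ?_⟩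
    simpa only [← norm_sq_eq] using h
  have h3 : HasSum (fun q : Σ p, X p => ‖f q.1 q.2‖ ^ 2) (∑' p, ‖f p‖ ^ 2) := by
    have h4 : ∑' p, ‖f p‖ ^ 2 = ∑' q : Σ p, X p, ‖f q.1 q.2‖ ^ 2 := by
      rw [h2.tsum_sigma]
      exact tsum_congr fun p => norm_sq_eq (f p)
    rw [h4]
    exact h2.hasSum
  exact (Equiv.hasSum_iff e).2 h3

theorem summable_T (e : Y ≃ Σ p, X p) (T : ∀ p, Op (X p)) (C : ℝ)
    (hT : ∀ p, ‖T p‖ ≤ C) (ζ : L2 Y) :
    (Summable fun p => ‖T p (prt e p ζ)‖ ^ 2) ∧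
      ∑' p, ‖T p (prt e p ζ)‖ ^ 2 ≤ C ^ 2 * ‖ζ‖ ^ 2 := by
  have hle : ∀ p, ‖T p (prt e p ζ)‖ ^ 2 ≤ C ^ 2 * ‖prt e p ζ‖ ^ 2 := fun p => by
    rw [← mul_pow]
    refine pow_le_pow_left₀ (norm_nonneg _) (((T p).le_opNorm _).trans ?_) 2
    exact mul_le_mul_of_nonneg_right (hT p) (norm_nonneg _)
  have hs : Summable fun p => C ^ 2 * ‖prt e p ζ‖ ^ 2 := (hasSum_prt e ζ).summable.mul_left _
  have h1 : Summable fun p => ‖T p (prt e p ζ)‖ ^ 2 :=
    Summable.of_nonneg_of_le (fun _ => by positivity) hle hs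
  refine ⟨h1, ?_⟩
  rw [← (hasSum_prt e ζ).tsum_eq, ← tsum_mul_left]
  exact h1.tsum_le_tsum hle hs

/-- The direct sum of the operators `T p`. -/
noncomputable def dsum (e : Y ≃ Σ p, X p) (T : ∀ p, Op (X p)) (C : ℝ) (hC : 0 ≤ C)
    (hT : ∀ p, ‖T p‖ ≤ C) : Op Y :=
  LinearMap.mkContinuous
    { toFun := fun ζ => ⟨fun y => T (e y).1 (prt e (e y).1 ζ) (e y).2, memℓ2
        (hasSum_join e (fun p => T p (prt e p ζ)) (summable_T e T C hT ζ).1).summable⟩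
      map_add' := fun ζ η => by
        ext y
        have h : T (e y).1 (prt e (e y).1 (ζ + η)) =
            T (e y).1 (prt e (e y).1 ζ) + T (e y).1 (prt e (e y).1 η) := by
          rw [map_add, map_add]
        exact congrArg (fun v : L2 (X (e y).1) => v (e y).2) h
      map_smul' := fun r ζ => by
        ext y
        have h : T (e y).1 (prt e (e y).1 (r • ζ)) = r • T (e y).1 (prt e (e y).1 ζ) := by
          rw [map_smul, map_smul]
        exact congrArg (fun v : L2 (X (e y).1) => v (e y).2) h }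
    C (fun ζ => by
      refine abs_le_of_sq_le_sq' ?_ (by positivity) |>.2
      have h := summable_T e T C hT ζ
      have h2 := (hasSum_join e (fun p => T p (prt e p ζ)) h.1).tsum_eq
      rw [norm_sq_eq]
      simp only [LinearMap.coe_mk, AddHom.coe_mk]
      rw [h2, mul_pow]
      exact h.2)

theorem dsum_apply (e : Y ≃ Σ p, X p) (T : ∀ p, Op (X p)) (C : ℝ) (hC : 0 ≤ C)
    (hT : ∀ p, ‖T p‖ ≤ C) (ζ : L2 Y) (y : Y) :
    dsum e T C hC hT ζ y = T (e y).1 (prt e (e y).1 ζ) (e y).2 := rfl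

theorem dsx : DsxStmt := by
  intro P Y X e T C hC hT
  refine ⟨dsum e T C hC hT, LinearMap.mkContinuous_norm_le _ hC _, fun p ζ => ?_⟩
  ext x
  rw [prt_apply, dsum_apply, Equiv.apply_symm_apply]

end Pool.Agent.MQG.H15
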